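import Mathlib

/-!
# Gonality of the product of a tree and a graph below the expected value

Let `T` be the tree with two vertices and let `H` be the graph obtained from a triangle with all
edges tripled by attaching a path with three edges at a vertex `a`.  Then `H` has six vertices and
gonality three, so that the expected gonality of the product of `T` and `H` is six, but the divisor
with two chips at `(0, a)` and one chip at each of `(0, b)`, `(0, c)`, `(1, a)`, where `b` and `c`
are the other vertices of the triangle, has positive rank.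
-/

namespace Pool.Agent.Results.MP_30555c_co.TreeTimesGraph

open Finset

/-- A finite connected multigraph without loops: `m u v` is the number of edges joining the
vertices `u` and `v`. -/
structure MGraph where
  V : Type
  fin : Fintype V
  dec : DecidableEq V
  nonempty : Nonempty V
  m : V → V → ℕ
  symm : ∀ u v, m u v = m v u
  loopless : ∀ v, m v v = 0
  connected : ∀ u v, Relation.ReflTransGen (fun a b => 0 < m a b) u v

attribute [instance] MGraph.fin MGraph.dec

namespace MGraph

/-- The result of firing every vertex `v` exactly `f v` times (a negative number stands for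
reverse firings), starting from the divisor `D`. -/
def fire (G : MGraph) (D f : G.V → ℤ) : G.V → ℤ :=
  fun v => D v - ∑ u, (G.m v u : ℤ) * (f v - f u)

/-- Linear equivalence of divisors. -/
def Equivalent (G : MGraph) (D E : G.V → ℤ) : Prop := ∃ f : G.V → ℤ, E = G.fire D f

/-- The divisor is effective. -/
def Effective (G : MGraph) (D : G.V → ℤ) : Prop := ∀ v, 0 ≤ D v

/-- `D` is effective and for every vertex `v` the divisor `D - v` is equivalent to an effective
divisor. -/
def PositiveRank (G : MGraph) (D : G.V → ℤ) : Prop :=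
  G.Effective D ∧ ∀ v, ∃ E, G.Equivalent (fun w => D w - if w = v then 1 else 0) E ∧
    G.Effective E

/-- The gonality: the least degree of an effective divisor of positive rank. -/
noncomputable def gon (G : MGraph) : ℕ :=
  sInf {d : ℕ | ∃ D : G.V → ℤ, G.PositiveRank D ∧ ∑ v, D v = d}

/-- `G` is a tree: it (is connected and) has one edge less than vertices. -/
def IsTree (G : MGraph) : Prop := ∑ u, ∑ v, G.m u v = 2 * (Fintype.card G.V - 1)

/-- The Cartesian product. -/
def prod (G H : MGraph) : MGraph where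
  V := G.V × H.V
  fin := inferInstance
  dec := inferInstance
  nonempty := ⟨(G.nonempty.some, H.nonempty.some)⟩
  m x y := (if x.2 = y.2 then G.m x.1 y.1 else 0) + (if x.1 = y.1 then H.m x.2 y.2 else 0)
  symm x y := by
    rw [G.symm x.1 y.1, H.symm x.2 y.2]
    simp only [eq_comm]
  loopless x := by simp [G.loopless, H.loopless]
  connected := by
    rintro ⟨g, h⟩ ⟨g', h'⟩
    have h1 : ∀ a, Relation.ReflTransGen (fun a b => 0 < G.m a b) g a →
        Relation.ReflTransGen (fun a b : G.V × H.V =>
        0 < (if a.2 = b.2 then G.m a.1 b.1 else 0) + (if a.1 = b.1 then H.m a.2 b.2 else 0))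
        (g, h) (a, h) := by
      intro a ha
      induction ha with
      | refl => exact Relation.ReflTransGen.refl
      | tail _ hab ih =>
        refine ih.tail ?_
        simp only [if_true]
        omega
    have h2 : ∀ a, Relation.ReflTransGen (fun a b => 0 < H.m a b) h a →
        Relation.ReflTransGen (fun a b : G.V × H.V =>
        0 < (if a.2 = b.2 then G.m a.1 b.1 else 0) + (if a.1 = b.1 then H.m a.2 b.2 else 0))
        (g', h) (g', a) := by
      intro a ha
      induction ha with
      | refl => exact Relation.ReflTransGen.refl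
      | tail _ hab ih =>
        refine ih.tail ?_
        simp only [if_true]
        omega
    exact (h1 g' (G.connected g g')).trans (h2 h' (H.connected h h'))

end MGraph

open MGraph

/-- The multiplicities of the tree with two vertices. -/
def tm : Fin 2 → Fin 2 → ℕ := ![![0, 1], ![1, 0]]

/-- The multiplicities of the graph `H`: the vertices `0, 1, 2` form the triangle and the path is
`0, 3, 4, 5`. -/
def hm : Fin 6 → Fin 6 → ℕ :=
  ![![0, 3, 3, 1, 0, 0], ![3, 0, 3, 0, 0, 0], ![3, 3, 0, 0, 0, 0],
    ![1, 0, 0, 0, 1, 0], ![0, 0, 0, 1, 0, 1], ![0, 0, 0, 0, 1, 0]]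

theorem conn_of_parent {n : ℕ} (m : Fin (n + 1) → Fin (n + 1) → ℕ) (hs : ∀ u v, m u v = m v u)
    (hp : ∀ v : Fin (n + 1), v ≠ 0 → ∃ p, p < v ∧ 0 < m p v) (u v : Fin (n + 1)) :
    Relation.ReflTransGen (fun a b => 0 < m a b) u v := by
  have key : ∀ k : ℕ, ∀ v : Fin (n + 1), v.val = k →
      Relation.ReflTransGen (fun a b => 0 < m a b) 0 v := by
    intro k
    induction k using Nat.strong_induction_on with
    | _ k ih =>
      intro v hv
      by_cases h0 : v = 0
      · rw [h0]
      · obtain ⟨p, hp1, hp2⟩ := hp v h0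
        exact (ih p.val (by rw [← hv]; exact hp1) p rfl).tail hp2
  have h2 : ∀ w, Relation.ReflTransGen (fun a b => 0 < m a b) 0 w →
      Relation.ReflTransGen (fun a b => 0 < m a b) w 0 := by
    intro w hw
    induction hw with
    | refl => exact Relation.ReflTransGen.refl
    | tail _ hab ih => exact Relation.ReflTransGen.head (by rw [hs]; exact hab) ih
  exact (h2 u (key u.val u rfl)).trans (key v.val v rfl)

/-- The tree with two vertices. -/
def T : MGraph where
  V := Fin 2
  fin := inferInstance
  dec := inferInstance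
  nonempty := ⟨0⟩
  m := tm
  symm := by decide
  loopless := by decide
  connected := conn_of_parent tm (by decide) (by decide)

/-- A triangle with all edges tripled and a path with three edges attached. -/
def H : MGraph where
  V := Fin 6
  fin := inferInstance
  dec := inferInstance
  nonempty := ⟨0⟩
  m := hm
  symm := by decide
  loopless := by decide
  connected := conn_of_parent hm (by decide) (by decide)

/-- The divisor of degree five on the product. -/
def D5 : Fin 2 × Fin 6 → ℤ := fun x => ![![2, 1, 1, 0, 0, 0], ![1, 0, 0, 0, 0, 0]] x.1 x.2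

/-- The firings that bring a chip to the vertex `v`. -/
def F5 (v : Fin 2 × Fin 6) : Fin 2 × Fin 6 → ℤ := fun x =>
  if v.2 < 3 then
    (if v.1 = 0 ∨ v.2 = 0 then 0 else if x.1 = 0 ∧ x.2 < 3 then 1 else 0)
  else (if x.2 < 3 then (v.2.val : ℤ) - 2 else if x.2 < v.2 then (v.2.val : ℤ) - x.2.val else 0)

/-- The multiplicities of the product. -/
def pm : Fin 2 × Fin 6 → Fin 2 × Fin 6 → ℕ := fun x y =>
  (if x.2 = y.2 then tm x.1 y.1 else 0) + (if x.1 = y.1 then hm x.2 y.2 else 0)

theorem rankD5' : ∀ v w : Fin 2 × Fin 6, 0 ≤ (D5 w - if w = v then 1 else 0) -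
    ∑ u, (pm w u : ℤ) * (F5 v w - F5 v u) := by
  decide +kernel

theorem rankD5 (v w : Fin 2 × Fin 6) : 0 ≤ (T.prod H).fire
    (fun w : Fin 2 × Fin 6 => D5 w - if w = v then 1 else 0) (F5 v) w :=
  rankD5' v w

theorem gon_prod_le : (T.prod H).gon ≤ 5 := by
  refine Nat.sInf_le ⟨D5, ⟨?_, fun v => ⟨_, ⟨F5 v, rfl⟩, fun w => rankD5 v w⟩⟩, ?_⟩
  · intro v
    have : ∀ v : Fin 2 × Fin 6, 0 ≤ D5 v := by decide
    exact this v
  · decide +kernel

theorem lower (D : Fin 6 → ℤ) (hD : ∀ v, 0 ≤ D v)
    (hr : ∀ v : Fin 6, ∃ f : Fin 6 → ℤ, ∀ w, 0 ≤ (D w - if w = v then 1 else 0) -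
      ∑ u, (hm w u : ℤ) * (f w - f u)) : 3 ≤ ∑ v, D v := by
  obtain ⟨f0, h0⟩ := hr 0
  obtain ⟨f1, h1⟩ := hr 1
  obtain ⟨f2, h2⟩ := hr 2
  rw [Fin.sum_univ_six]
  have d0 := hD 0
  have d1 := hD 1
  have d2 := hD 2
  have d3 := hD 3
  have d4 := hD 4
  have d5 := hD 5
  by_contra hlt
  push Not at hlt
  have a0 := h0 0
  have a1 := h0 1
  have a2 := h0 2
  have a3 := h0 3
  have a4 := h0 4
  have a5 := h0 5
  have b0 := h1 0
  have b1 := h1 1
  have b2 := h1 2
  have b3 := h1 3
  have b4 := h1 4
  have b5 := h1 5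
  have c0 := h2 0
  have c1 := h2 1
  have c2 := h2 2
  have c3 := h2 3
  have c4 := h2 4
  have c5 := h2 5
  simp [Fin.sum_univ_six, hm] at a0 a1 a2 a3 a4 a5 b0 b1 b2 b3 b4 b5 c0 c1 c2 c3 c4 c5
  have k1 : 1 ≤ D 1 := by
    clear a0 a1 a2 a3 a4 a5 c0 c1 c2 c3 c4 c5
    by_contra hk
    have : 3 * (2 * f1 1 - f1 0 - f1 2) ≤ -3 := by
      omega
    omega
  have k2 : 1 ≤ D 2 := by
    clear a0 a1 a2 a3 a4 a5 b0 b1 b2 b3 b4 b5
    by_contra hk
    have : 3 * (2 * f2 2 - f2 0 - f2 1) ≤ -3 := by
      omega
    omega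
  clear b0 b1 b2 b3 b4 b5 c0 c1 c2 c3 c4 c5
  omega

theorem three_le_gon_H : 3 ≤ H.gon := by
  refine le_csInf ⟨6, fun _ => 1, ⟨fun v => zero_le_one, fun v => ⟨fun w => if w = v then 0 else 1,
    ⟨0, ?_⟩, ?_⟩⟩, by decide⟩ ?_
  · funext w
    simp only [fire, Pi.zero_apply, sub_self, mul_zero, sum_const_zero, sub_zero]
    split_ifs <;> rfl
  · intro w
    dsimp only
    split_ifs <;> norm_num
  · rintro d ⟨D, ⟨hD, hr⟩, hd⟩
    have h := lower D hD (fun v => by
      obtain ⟨E, ⟨f, hf⟩, hE⟩ := hr v
      refine ⟨f, fun w => ?_⟩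
      have h1 := hE w
      rw [hf] at h1
      exact h1)
    have h2 : (3 : ℤ) ≤ d := by rw [← hd]; exact h
    exact_mod_cast h2

/-- There are a tree `T` and a graph `H` such that the gonality of the product of `T` and `H` is
not the minimum of `|V(H)|` and `|V(T)| * gon(H)`. -/
theorem result : ∃ T H : MGraph, T.IsTree ∧
    (T.prod H).gon ≠ min (Fintype.card H.V) (Fintype.card T.V * H.gon) := by
  have ht : ∑ u : Fin 2, ∑ v : Fin 2, tm u v = 2 * (Fintype.card (Fin 2) - 1) := by decide
  refine ⟨T, H, ht, ?_⟩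
  have h1 := gon_prod_le
  have h2 := three_le_gon_H
  have h3 : Fintype.card H.V = 6 := rfl
  have h4 : Fintype.card T.V = 2 := rfl
  rw [h3, h4]
  omega

end Pool.Agent.Results.MP_30555c_co.TreeTimesGraph
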